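import Pool.Agent.H4.CC.Bc

/-!
# Coloured hyperplanes of CAT(0) cube complexes and positive scalar curvature

A closed aspherical spin manifold whose fundamental group satisfies the strong Novikov conjecture has no
metric of positive scalar curvature.  `B` is a class of groups with the inheritance properties of the
Baum–Connes conjecture with coefficients (`Inherit B S`, library), which implies the strong Novikov
conjecture.  `TreeCl B`: a countable group which acts on a tree without inversions is in `B` if the
stabilizers of the vertices are (Oyono-Oyono, Tu, for the Baum–Connes conjecture with coefficients).

Let the countable group `G` act on a median graph `X`, that is on a CAT(0) cube complex of any dimension,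
finite or infinite, not necessarily locally finite; the action need not be proper or cocompact.  Suppose
that the hyperplanes of `X` have an invariant colouring such that hyperplanes which cross have different
colours (for instance: no hyperplane crosses any of its translates; or `X` is a product of trees whose
factors are preserved; infinitely many colours are allowed), and that no hyperplane is inverted.

**Theorem.**  If the stabilizers of the vertices are in `B`, then `G` is in `B`.

So the theorem of Oyono-Oyono and Tu on trees holds for these cube complexes.  Note that `X` can have
infinite dimension and that the stabilizers are not assumed to be amenable or a-T-menable.

Outline of the proof.  For a finite set `J` of colours let `R_J(x)` be the set of the vertices which are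
joined with `x` by walks which cross only hyperplanes with colours in `J`.  For a colour `i` which is not in
`J` the regions `R_J(y)` in `R_{J ∪ i}(x)` are the vertices of a tree, whose edges are the hyperplanes of
colour `i` which cross `R_{J ∪ i}(x)`: two parallel edges in the region are joined by a strip of squares
whose rails cross hyperplanes with colours in `J`, since no two hyperplanes of colour `i` cross; and a
hyperplane of colour `i` separates the regions at its sides.  So the stabilizers of the regions are in `B`
by induction, and every finitely generated subgroup of `G` is contained in one of them.
-/

set_option autoImplicit false

namespace Pool.Agent.Results.MP_df705a_gt.ColouredHyperplanes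

open Pool.Agent.R941.BC (Inherit)
open Pool.Agent.H4.CC

/-- **Actions on CAT(0) cube complexes with coloured hyperplanes.** -/
theorem result {B S : ∀ (G : Type) [Group G], Prop} (h : Inherit B S) (hT : TreeCl B)
    (V G : Type) [Group G] [Countable G] [MulAction G V] (X : SimpleGraph V) (hX : Median X)
    (hact : ∀ (g : G) (x y : V), X.Adj x y → X.Adj (g • x) (g • y))
    (U : Type) (cl : V → V → U) (hcl : Colouring G X cl)
    (hinv : ∀ (g : G) (a b : V), X.Adj a b → ¬ Par X (g • (a, b)) (b, a))
    (hst : ∀ v : V, B (MulAction.stabilizer G v)) : B G :=
  median_mem h hT hX hact hcl hinv hst

end Pool.Agent.Results.MP_df705a_gt.ColouredHyperplanes
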