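import Pool.Agent.H4.CC.Wb

/-!
# Special actions on CAT(0) cube complexes and positive scalar curvature

A closed aspherical spin manifold whose fundamental group satisfies the strong Novikov conjecture has no
metric of positive scalar curvature.  `B` is a class of groups with the inheritance properties of the
Baum–Connes conjecture with coefficients, and `S` satisfies the extension criterion for injectivity of the
assembly maps with coefficients (`Inherit B S`, library), which implies the strong Novikov conjecture.
`W B` is the class of the groups `G` such that every countable group with a subgroup of finite index
which embeds in a finite power of `G` is in `B`; it is closed under subgroups, overgroups of finite index,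
directed unions and arbitrary extensions (library).  It is assumed that `W B` contains the free groups.

Let `G` act on a median graph `X`, that is on a CAT(0) cube complex of any dimension (finite or infinite,
not necessarily locally finite); the action need not be proper or cocompact.

**Theorem.**  If the normal subgroup `K` acts freely on the vertices and specially in the sense of Haglund
and Wise (the hyperplanes of `K \ X` do not cross themselves, do not osculate themselves directly, and two
hyperplanes which cross do not osculate), then `K` is in `W B`; so, for countable `G`, if `G ⧸ K` is in `B`
(in `S`) then `G` is in `B` (in `S`).

Outline of the proof.  `K` embeds in the right-angled Coxeter group of its orbits of oriented hyperplanes: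
crossing a hyperplane `ℓ` is mapped to `s ℓ * s ℓ'`, where `ℓ'` is the opposite of `ℓ`.  Median graphs are
simply connected, so this gives a map from the vertices to the Coxeter group.  It is injective: the
crossings of the hyperplanes `ℓ` are partial bijections of the set `V` of vertices, and if one adds a flag
for each pair of opposite labels they extend to an action of the Coxeter group on `V × (L → Bool)`.  The
Coxeter groups are in `W B` by `MP_df705a_gt.KernelsOfSplittings` of the library.
-/

set_option autoImplicit false

namespace Pool.Agent.Results.MP_df705a_gt.SpecialKernels

open Pool.Agent.R941.BC (Inherit W)
open Pool.Agent.H4.CC

/-- **Special actions on CAT(0) cube complexes.** -/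
theorem result {B S : ∀ (G : Type) [Group G], Prop} (h : Inherit B S) (hF : W B (FreeGroup ℕ))
    (V G : Type) [Group G] [MulAction G V] (X : SimpleGraph V) (hX : Median X)
    (hact : ∀ (g : G) (x y : V), X.Adj x y → X.Adj (g • x) (g • y))
    (K : Subgroup G) [K.Normal] (hK : Special X K) :
    W B K ∧ (Countable G → (B (G ⧸ K) → B G) ∧ (S (G ⧸ K) → S G)) := by
  have hW := special_mem h hF hX hact hK
  exact ⟨hW, fun _ => ⟨(Pool.Agent.R941.BC.main h).2.2.1 G K hW,
    (Pool.Agent.R941.BC.main h).2.2.2.1 G K hW⟩⟩

end Pool.Agent.Results.MP_df705a_gt.SpecialKernels
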